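import Pool.Agent.helper96.S5.SpecL

/-!
# MP_0b485e_lc, level 5, row PAT: quantifier-free properties
-/

set_option autoImplicit false

namespace S5

open PF

/-- no quantifiers at all, then more blocks -/
theorem PAT_zero (hPMO : PMO_stmt) (L : Type) [Lattice L] [BoundedOrder L] (n : ℕ) (b : Bool)
    (P : Pp L) (μ : XM) (h : ∀ δ e, P δ e ↔ XM.ev δ e μ) : Rp L n b P := by
  induction n generalizing b with
  | zero => exact ⟨[], μ, rfl, fun δ e => h δ e⟩
  | succ n ih => exact hPMO L n b b P (ih b)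

/-- `a ≤ b` as a formula -/
def PAT_le (a b : Tm) : Fm := .eq (.sup a b) b

theorem PAT_le_holds {L : Type} [Lattice L] [BoundedOrder L] (a b : Tm) (e : ℕ → L) :
    (PAT_le a b).Holds e ↔ a.ev e ≤ b.ev e := by
  show a.ev e ⊔ b.ev e = b.ev e ↔ _
  exact sup_eq_right

theorem PAT_row (hPMO : PMO_stmt) : PAT_stmt := by
  intro L _ _ n b
  refine ⟨fun φ => ?_, fun r i1 i2 i3 i4 => ?_, fun pi i1 i2 => ?_, fun s t => ?_, fun s t => ?_⟩
  · exact PAT_zero hPMO L n b _ (.fm φ) fun δ e => Iff.rfl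
  · exact PAT_zero hPMO L n b _ (.rl r i1 i2 i3 i4) fun δ e => Iff.rfl
  · refine PAT_zero hPMO L n b _ (.fm (.and (PAT_le (.inf (.var i1) (.var i2)) (.var (pi 2)))
      (PAT_le (.var (pi 1)) (.sup (.var i1) (.var i2))))) fun δ e => ?_
    show _ ↔ (PAT_le (.inf (.var i1) (.var i2)) (.var (pi 2))).Holds e ∧
      (PAT_le (.var (pi 1)) (.sup (.var i1) (.var i2))).Holds e
    rw [PAT_le_holds, PAT_le_holds]
    rfl
  · exact PAT_zero hPMO L n b _ (.fm (PAT_le s t)) fun δ e => (PAT_le_holds s t e).symm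
  · exact PAT_zero hPMO L n b _ (.fm (.eq s t)) fun δ e => Iff.rfl

end S5
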